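import Pool.Agent.H346.SC.Close
import Pool.Graph.R_seed8.H322R3.HypGeom

set_option autoImplicit false

/-!
# Hyperbolicity of small cancellation groups, and geodesics that follow no relator
-/

namespace Pool.Agent.H346.SC

open Pool.Agent.H17R2 Pool.Agent.TH54.BU FreeGroup Pool.Agent.H322R3.Hyp

section word

variable {α G : Type} [DecidableEq α] [Group G] (f : α → G)

omit [DecidableEq α] in
lemma mk_list_prod (l : List (α × Bool)) :
    lift f (mk l) = (l.map (fun x => cond x.2 (f x.1) (f x.1)⁻¹)).prod := by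
  rw [FreeGroup.lift_mk]

/-- the word length is at most the length of a representative -/
lemma wlen_le_norm (g : FreeGroup α) : wlen (Set.range f) (lift f g) ≤ norm g := by
  have h1 : lift f g = (g.toWord.map (fun x => cond x.2 (f x.1) (f x.1)⁻¹)).prod := by
    conv_lhs => rw [← mk_toWord (x := g)]
    exact mk_list_prod f _
  have h2 := wlen_le (S := Set.range f) (g.toWord.map (fun x => cond x.2 (f x.1) (f x.1)⁻¹)) (by
    intro x hx
    rw [List.mem_map] at hx
    obtain ⟨y, -, rfl⟩ := hx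
    cases y.2
    · right; simp
    · left; simp)
  rw [← h1, List.length_map] at h2
  exact h2

/-- a product of generators has a short representative -/
lemma exists_norm_le (l : List G) (hl : ∀ x ∈ l, x ∈ Set.range f ∨ x⁻¹ ∈ Set.range f) :
    ∃ g : FreeGroup α, lift f g = l.prod ∧ norm g ≤ l.length := by
  induction l with
  | nil => exact ⟨1, by simp, by simp⟩
  | cons x l ih =>
    obtain ⟨g, h1, h2⟩ := ih (fun y hy => hl y (List.mem_cons_of_mem _ hy))
    rcases hl x List.mem_cons_self with ⟨a, ha⟩ | ⟨a, ha⟩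
    · refine ⟨of a * g, by simp [h1, ha], ?_⟩
      have := FreeGroup.norm_mul_le (of a) g
      rw [norm_of] at this
      simp only [List.length_cons]
      omega
    · refine ⟨(of a)⁻¹ * g, by simp [h1, ha], ?_⟩
      have := FreeGroup.norm_mul_le (of a)⁻¹ g
      rw [norm_inv_eq, norm_of] at this
      simp only [List.length_cons]
      omega

lemma exists_norm_eq (hS : Subgroup.closure (Set.range f) = ⊤) (q : G) :
    ∃ g : FreeGroup α, lift f g = q ∧ norm g = wlen (Set.range f) q := by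
  obtain ⟨l, h1, h2, h3⟩ := wlen_spec hS q
  obtain ⟨g, h4, h5⟩ := exists_norm_le f l h2
  have h6 := wlen_le_norm f g
  rw [h4, h3] at h6
  exact ⟨g, h4.trans h3, by omega⟩

/-- in a free group the word length is the norm -/
lemma wlen_free (hS : Subgroup.closure (Set.range f) = ⊤) (hinj : Function.Injective (lift f))
    (g : FreeGroup α) : wlen (Set.range f) (lift f g) = norm g := by
  obtain ⟨g', h1, h2⟩ := exists_norm_eq f hS (lift f g)
  rw [← h2, hinj h1]

omit [DecidableEq α] in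
lemma lift_closure (g : FreeGroup α) : lift f g ∈ Subgroup.closure (Set.range f) := by
  rw [← FreeGroup.range_lift_eq_closure]
  exact ⟨g, rfl⟩

end word

section four

variable {G : Type} [Group G] {A : Set G}

/-- the four point inequality gives hyperbolicity -/
lemma hyp_of_four (hS : Subgroup.closure A = ⊤) (D : ℕ)
    (h : Four (fun u v : G => wlen A (u⁻¹ * v)) D) : IsHyperbolic A := by
  refine ⟨D, fun w x y z => ?_⟩
  have h1 := h x z y w
  simp only at h1
  have c : ∀ u v : G, wlen A (u⁻¹ * v) = wlen A (v⁻¹ * u) := by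
    intro u v
    rw [← wlen_inv hS]; congr 1; group
  have c1 := c z w
  have c2 := c z y
  have h2 : (wlen A (x⁻¹ * z) : ℝ) + wlen A (y⁻¹ * w) ≤
      max ((wlen A (x⁻¹ * y) : ℝ) + wlen A (z⁻¹ * w)) ((wlen A (x⁻¹ * w) : ℝ) + wlen A (z⁻¹ * y)) +
        D := by
    exact_mod_cast h1
  unfold gprod wdist
  rw [c2] at h2
  rcases le_total ((wlen A (x⁻¹ * y) : ℝ) + wlen A (z⁻¹ * w))
    ((wlen A (x⁻¹ * w) : ℝ) + wlen A (y⁻¹ * z)) with h3 | h3
  · rw [max_eq_right h3] at h2
    have := min_le_right (((wlen A (x⁻¹ * w) : ℝ) + wlen A (y⁻¹ * w) - wlen A (x⁻¹ * y)) / 2)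
      (((wlen A (y⁻¹ * w) : ℝ) + wlen A (z⁻¹ * w) - wlen A (y⁻¹ * z)) / 2)
    have := min_le_left (((wlen A (x⁻¹ * w) : ℝ) + wlen A (y⁻¹ * w) - wlen A (x⁻¹ * y)) / 2)
      (((wlen A (y⁻¹ * w) : ℝ) + wlen A (z⁻¹ * w) - wlen A (y⁻¹ * z)) / 2)
    have h0 : (0:ℝ) ≤ D := Nat.cast_nonneg D
    linarith
  · rw [max_eq_left h3] at h2
    have := min_le_right (((wlen A (x⁻¹ * w) : ℝ) + wlen A (y⁻¹ * w) - wlen A (x⁻¹ * y)) / 2)
      (((wlen A (y⁻¹ * w) : ℝ) + wlen A (z⁻¹ * w) - wlen A (y⁻¹ * z)) / 2)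
    have := min_le_left (((wlen A (x⁻¹ * w) : ℝ) + wlen A (y⁻¹ * w) - wlen A (x⁻¹ * y)) / 2)
      (((wlen A (y⁻¹ * w) : ℝ) + wlen A (z⁻¹ * w) - wlen A (y⁻¹ * z)) / 2)
    have h0 : (0:ℝ) ≤ D := Nat.cast_nonneg D
    linarith

end four

variable {α : Type} [DecidableEq α]

/-- the norm of the free group as a hyperbolic length -/
noncomputable def normGH : GH (FreeGroup α) where
  len := norm
  D := 0
  len_one := norm_one
  eq_one := fun g h => FreeGroup.norm_eq_zero.1 h
  len_inv := fun g => norm_inv_eq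
  len_mul := norm_mul_le
  fp' := fun u v w z => by
    have h := (fTree α).four u v w z
    change (norm (u⁻¹ * v) : ℤ) + norm (w⁻¹ * z) ≤ max ((norm (u⁻¹ * w) : ℤ) + norm (v⁻¹ * z))
      ((norm (u⁻¹ * z) : ℤ) + norm (v⁻¹ * w)) at h
    rw [add_zero]
    exact_mod_cast h
  step := fun g k hk => by
    obtain ⟨m, h1, h2⟩ := exists_pt 1 g k (by omega) (by rw [fd_one]; exact_mod_cast hk)
    have h1' : fd 1 m + fd m g = fd 1 g := h1
    rw [fd_one] at h2 h1'
    rw [fd_one] at h1'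
    unfold fd at h1'
    exact ⟨m, by omega, by omega⟩

lemma free_hyp {G : Type} [Group G] (f : α → G)
    (hS : Subgroup.closure (Set.range f) = ⊤) (hinj : Function.Injective (lift f)) :
    IsHyperbolic (Set.range f) := by
  apply hyp_of_four hS 0
  intro u v w z
  obtain ⟨u, rfl, -⟩ := exists_norm_eq f hS u
  obtain ⟨v, rfl, -⟩ := exists_norm_eq f hS v
  obtain ⟨w, rfl, -⟩ := exists_norm_eq f hS w
  obtain ⟨z, rfl, -⟩ := exists_norm_eq f hS z
  have h := (normGH (α := α)).fp u v w z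
  have e : ∀ a b : FreeGroup α, wlen (Set.range f) ((lift f a)⁻¹ * lift f b) =
      (normGH (α := α)).d a b := by
    intro a b
    rw [← _root_.map_inv, ← _root_.map_mul, wlen_free f hS hinj]
    rfl
  show wlen (Set.range f) ((lift f u)⁻¹ * lift f v) + wlen (Set.range f) ((lift f w)⁻¹ * lift f z) ≤
    max (wlen (Set.range f) ((lift f u)⁻¹ * lift f w) +
      wlen (Set.range f) ((lift f v)⁻¹ * lift f z))
    (wlen (Set.range f) ((lift f u)⁻¹ * lift f z) +
      wlen (Set.range f) ((lift f v)⁻¹ * lift f w)) + 0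
  simp only [e]
  exact h

variable (S : Words α)

/-- the small cancellation group -/
abbrev Gp : Type := FreeGroup α ⧸ S.toFam.N

/-- the generators -/
def gen (a : α) : Gp S := QuotientGroup.mk (of a)

lemma lift_gen : lift (gen S) = QuotientGroup.mk' S.toFam.N := by
  ext a
  simp [gen]

lemma lift_gen' (g : FreeGroup α) : lift (gen S) g = (g : Gp S) := by
  rw [lift_gen]; rfl

lemma gen_closure : Subgroup.closure (Set.range (gen S)) = ⊤ := by
  rw [← FreeGroup.range_lift_eq_closure, lift_gen]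
  exact MonoidHom.range_eq_top.2 (QuotientGroup.mk'_surjective _)

lemma wlen_gen (q : Gp S) :
    wlen (Set.range (gen S)) q = (normGH (α := α)).qoLen S.toFam.N q := by
  apply le_antisymm
  · obtain ⟨g, h1, h2⟩ := (normGH (α := α)).qoLen_rep S.toFam.N q
    rw [← h2, ← h1, ← lift_gen']
    exact wlen_le_norm (gen S) g
  · obtain ⟨g, h1, h2⟩ := exists_norm_eq (gen S) (gen_closure S) q
    rw [← h2, ← h1, lift_gen']
    exact (normGH (α := α)).qoLen_le S.toFam.N g

lemma qo_dm {G : Type} [Group G] (E : GH G) (M : Subgroup G) [M.Normal] :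
    DM (fun u v : G ⧸ M => E.qoLen M (u⁻¹ * v)) where
  self u := by
    show E.qoLen M (u⁻¹ * u) = 0
    rw [inv_mul_cancel]; exact E.qoLen_one M
  eq u v h := inv_mul_eq_one.1 (E.qoLen_eq_one M _ h)
  comm u v := by
    show E.qoLen M (u⁻¹ * v) = E.qoLen M (v⁻¹ * u)
    rw [← E.qoLen_inv]; congr 1; group
  tri u v w := by
    have := E.qoLen_mul M (u⁻¹ * v) (v⁻¹ * w)
    rwa [show u⁻¹ * v * (v⁻¹ * w) = u⁻¹ * w by group] at this
  btw u v k hk := by
    obtain ⟨p, h1, h2⟩ := E.qoLen_step M (u⁻¹ * v) k hk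
    refine ⟨u * p, ?_, ?_⟩
    · show E.qoLen M (u⁻¹ * (u * p)) = k
      rw [inv_mul_cancel_left, h1]
    · show E.qoLen M ((u * p)⁻¹ * v) + k = _
      rw [show (u * p)⁻¹ * v = p⁻¹ * (u⁻¹ * v) by group]
      exact h2

lemma elen_le_norm (g : FreeGroup α) : elen S g ≤ norm g :=
  elen_le S (EP.of_norm _ g (by rw [fd_one]))

variable {S}

/-- a step of the cone has bounded length in the quotient -/
lemma pc_bdd {C : ℕ} (hC : ∀ b ∈ S.B, b.2 ≤ C) (h1 : 1 ≤ C) {p q : FreeGroup α} (h : Pc S p q) :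
    (normGH (α := α)).qoLen S.toFam.N ((p⁻¹ * q : FreeGroup α) : Gp S) ≤ C := by
  rcases h with h | ⟨x, hx, a, b, rfl, rfl⟩
  · have h2 := (normGH (α := α)).qoLen_le S.toFam.N (p⁻¹ * q)
    have h3 : (norm (p⁻¹ * q) : ℤ) ≤ 1 := h
    change _ ≤ norm (p⁻¹ * q) at h2
    omega
  · have hL : 0 < x.2 := L_pos ⟨x, hx⟩
    have hLC : x.2 ≤ C := by
      obtain ⟨y, hy, g, s, ε, rfl⟩ := hx
      exact hC y hy
    obtain ⟨t, ht, htr⟩ := S.exists_tr x hx
    have hpow : ∀ j : ℤ, ∀ k, t ^ j * x.1 k = x.1 (k + j * x.2) := by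
      intro j
      induction j using Int.induction_on with
      | zero => intro k; simp
      | succ j ih =>
        intro k
        have e : k + x.2 + (j : ℤ) * x.2 = k + ((j : ℤ) + 1) * x.2 := by ring
        rw [zpow_add, zpow_one, mul_assoc, htr, ih, e]
      | pred j ih =>
        intro k
        rw [zpow_sub, zpow_one]
        have h1 := htr (k - x.2)
        rw [sub_add_cancel] at h1
        have e : k - x.2 + -(j : ℤ) * x.2 = k + (-(j : ℤ) - 1) * x.2 := by ring
        rw [mul_assoc, ← h1, inv_mul_cancel_left, ih, e]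
    set m := -((b - a) / x.2) with hm
    have hmod : b + m * x.2 = a + (b - a) % x.2 := by
      have := Int.emod_add_mul_ediv (b - a) x.2
      rw [hm]
      linarith
    have h2 := Int.emod_nonneg (b - a) hL.ne'
    have h3 := Int.emod_lt_of_pos (b - a) hL
    have e1 : (((x.1 a)⁻¹ * x.1 b : FreeGroup α) : Gp S) =
        (((x.1 a)⁻¹ * x.1 (b + m * x.2) : FreeGroup α) : Gp S) := by
      rw [← hpow m b]
      have h4 : ((t ^ m : FreeGroup α) : Gp S) = 1 := by
        rw [QuotientGroup.eq_one_iff]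
        exact Subgroup.zpow_mem _ ht m
      simp only [QuotientGroup.mk_mul]
      rw [h4, one_mul]
    rw [e1]
    have h4 := (normGH (α := α)).qoLen_le S.toFam.N ((x.1 a)⁻¹ * x.1 (b + m * x.2))
    have h5 := S.toFam.line x hx a (b + m * x.2)
    change ((norm ((x.1 a)⁻¹ * x.1 (b + m * x.2)) : ℕ) : ℤ) = _ at h5
    rw [hmod] at h5 h4 ⊢
    rw [show a - (a + (b - a) % x.2) = -((b - a) % x.2) by ring, abs_neg, abs_of_nonneg h2] at h5
    change _ ≤ norm ((x.1 a)⁻¹ * x.1 (a + (b - a) % x.2)) at h4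
    omega

lemma ep_bdd {C : ℕ} (hC : ∀ b ∈ S.B, b.2 ≤ C) (h1 : 1 ≤ C) {n : ℕ} {p q : FreeGroup α}
    (h : EP S n p q) :
    (normGH (α := α)).qoLen S.toFam.N ((p⁻¹ * q : FreeGroup α) : Gp S) ≤ C * n := by
  induction h with
  | zero p =>
    rw [inv_mul_cancel]
    exact ((normGH (α := α)).qoLen_one S.toFam.N).le
  | @succ n p q r _ hp ih =>
    have h2 := pc_bdd hC h1 hp
    have h3 := (normGH (α := α)).qoLen_mul S.toFam.N ((p⁻¹ * q : FreeGroup α) : Gp S)
      ((q⁻¹ * r : FreeGroup α) : Gp S)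
    rw [← QuotientGroup.mk_mul, show p⁻¹ * q * (q⁻¹ * r) = p⁻¹ * r by group] at h3
    have : C * (n + 1) = C * n + C := by ring
    omega

/-- **small cancellation groups are hyperbolic** -/
theorem gp_hyp {C : ℕ} (hC : ∀ b ∈ S.B, b.2 ≤ C) : IsHyperbolic (Set.range (gen S)) := by
  have key := Pool.Agent.Y470.SM.t (Gp S)
    (fun u v => (coneGH S).qoLen S.toFam.N (u⁻¹ * v))
    (fun u v => (normGH (α := α)).qoLen S.toFam.N (u⁻¹ * v))
    (qo_dm _ _) (qo_dm _ _) (C + 1) 3 (by
      intro u v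
      obtain ⟨g, h1, h2⟩ := (normGH (α := α)).qoLen_rep S.toFam.N (u⁻¹ * v)
      have h3 := (coneGH S).qoLen_le S.toFam.N g
      rw [h1] at h3
      have h4 : (coneGH S).len g ≤ norm g := elen_le_norm S g
      have h5 : (normGH (α := α)).len g = norm g := rfl
      show (coneGH S).qoLen S.toFam.N (u⁻¹ * v) ≤ (normGH (α := α)).qoLen S.toFam.N (u⁻¹ * v)
      omega) (by
      intro u v
      obtain ⟨g, h1, h2⟩ := (coneGH S).qoLen_rep S.toFam.N (u⁻¹ * v)
      have h3 := ep_bdd (C := C + 1) (fun b hb => (hC b hb).trans (by push_cast; omega)) (by omega)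
        (elen_spec S g)
      rw [inv_one, one_mul, h1] at h3
      have h4 : (coneGH S).len g = elen S g := rfl
      show (normGH (α := α)).qoLen S.toFam.N (u⁻¹ * v) ≤
        (C + 1) * (coneGH S).qoLen S.toFam.N (u⁻¹ * v)
      rw [← h2, h4]
      exact h3) (fun u v w z => quo_four u z v w)
  obtain ⟨D', hD⟩ := key
  apply hyp_of_four (gen_closure S) D'
  intro u v w z
  simp only [wlen_gen]
  exact hD u v w z

/-- elements whose displacement along all the relators is small have the same distance in the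
free group and in the quotient -/
theorem dist_eq (p q : FreeGroup α)
    (h : ∀ x : S.toFam.fam, 2 * S.toFam.K * |S.toFam.T.pr x.1.1 p - S.toFam.T.pr x.1.1 q| <
      (S.toFam.K - 12) * x.1.2) :
    (wlen (Set.range (gen S)) ((p : Gp S)⁻¹ * (q : Gp S)) : ℤ) = fd p q := by
  rw [wlen_gen]
  have hle := (normGH (α := α)).qoLen_le S.toFam.N (p⁻¹ * q)
  have e0 : ((p⁻¹ * q : FreeGroup α) : Gp S) = (p : Gp S)⁻¹ * (q : Gp S) := rfl
  rw [e0] at hle
  obtain ⟨g, h1, h2⟩ := (normGH (α := α)).qoLen_rep S.toFam.N ((p : Gp S)⁻¹ * (q : Gp S))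
  have h3 : ((p * g : FreeGroup α) : Gp S) = (q : Gp S) := by
    rw [QuotientGroup.mk_mul, h1]; group
  obtain ⟨m, hm, hm2⟩ := GH.qo_of_coe_eq S.toFam.N h3.symm
  by_cases hm1 : m = 1
  · rw [hm1, one_mul] at hm2
    rw [← h2]
    show (norm g : ℤ) = norm (p⁻¹ * q)
    rw [← hm2, inv_mul_cancel_left]
  · exfalso
    obtain ⟨x, hx⟩ := wind m q hm hm1
    rw [← hm2] at hx
    have hL := L_pos x
    have hK := S.toFam.hK
    have hK0 : (0 : ℤ) < S.toFam.K := by omega
    have h4 := h x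
    have h5 := abs_sub_le (S.toFam.T.pr x.1.1 q) (S.toFam.T.pr x.1.1 p)
      (S.toFam.T.pr x.1.1 (p * g))
    rw [abs_sub_comm (S.toFam.T.pr x.1.1 q) (S.toFam.T.pr x.1.1 p)] at h5
    have h6 := mul_le_mul_of_nonneg_left h5 hK0.le
    rw [mul_add] at h6
    have hbig : x.1.2 < 2 * |S.toFam.T.pr x.1.1 p - S.toFam.T.pr x.1.1 (p * g)| := by
      by_contra hcon
      push Not at hcon
      have a6 := mul_le_mul_of_nonneg_left hcon hK0.le
      have e1 : S.toFam.K * (2 * |S.toFam.T.pr x.1.1 p - S.toFam.T.pr x.1.1 (p * g)|) =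
        2 * (S.toFam.K * |S.toFam.T.pr x.1.1 p - S.toFam.T.pr x.1.1 (p * g)|) := by ring
      have e2 : (S.toFam.K - 6) * x.1.2 = S.toFam.K * x.1.2 - 6 * x.1.2 := by ring
      have e3 : (S.toFam.K - 12) * x.1.2 = S.toFam.K * x.1.2 - 12 * x.1.2 := by ring
      have e4 : 2 * S.toFam.K * |S.toFam.T.pr x.1.1 p - S.toFam.T.pr x.1.1 q| =
        2 * (S.toFam.K * |S.toFam.T.pr x.1.1 p - S.toFam.T.pr x.1.1 q|) := by ring
      omega
    obtain ⟨t, htN, -, hlt⟩ := shorten x p (p * g) hbig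
    have h7 := (normGH (α := α)).qoLen_le S.toFam.N (p⁻¹ * (t * (p * g)))
    have h8 : ((p⁻¹ * (t * (p * g)) : FreeGroup α) : Gp S) = (p : Gp S)⁻¹ * (q : Gp S) := by
      have : ((t : FreeGroup α) : Gp S) = 1 := (QuotientGroup.eq_one_iff t).2 htN
      rw [QuotientGroup.mk_mul, QuotientGroup.mk_mul, this, one_mul, h3]
      rfl
    rw [h8, ← h2] at h7
    have h9 : (norm g : ℕ) ≤ norm (p⁻¹ * (t * (p * g))) := h7
    unfold fd at hlt
    rw [inv_mul_cancel_left] at hlt
    omega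

end Pool.Agent.H346.SC
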