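import Pool.Agent.H346.SC.Cone

set_option autoImplicit false

/-!
# Rotations, closing of polygons, and hyperbolicity of the quotient of the cone length
-/

namespace Pool.Agent.H346.SC

open Pool.Agent.H17R2 Pool.Agent.TH54.BU FreeGroup

variable {α : Type} [DecidableEq α] {S : Words α}

lemma bt_pr (x : S.toFam.fam) {p q : FreeGroup α}
    (hne : S.toFam.T.pr x.1.1 p ≠ S.toFam.T.pr x.1.1 q) :
    Bt (fTree α) p (x.1.1 (S.toFam.T.pr x.1.1 p)) q ∧
      Bt (fTree α) p (x.1.1 (S.toFam.T.pr x.1.1 q)) q := by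
  have hl := S.toFam.line _ x.2
  have hd := hl.d_eq p q hne
  set a := S.toFam.T.pr x.1.1 p
  set b := S.toFam.T.pr x.1.1 q
  have e := hl a b
  have t1 := S.toFam.T.tri (x.1.1 a) (x.1.1 b) q
  have t2 := S.toFam.T.tri p (x.1.1 a) q
  have t3 := S.toFam.T.tri p (x.1.1 a) (x.1.1 b)
  have t4 := S.toFam.T.tri p (x.1.1 b) q
  constructor
  · show S.toFam.T.d _ _ + S.toFam.T.d _ _ = S.toFam.T.d _ _
    omega
  · show S.toFam.T.d _ _ + S.toFam.T.d _ _ = S.toFam.T.d _ _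
    omega

lemma L_pos (x : S.toFam.fam) : 0 < x.1.2 := by
  have h1 := S.toFam.KL _ x.2
  have h2 := S.toFam.hK
  omega

lemma Pc.cases (x : S.toFam.fam) {p q : FreeGroup α} (h : Pc S p q) :
    (∀ t ∈ (trans x.1.1 x.1.2 : Subgroup (FreeGroup α)), Pc S p (t * q)) ∨
    S.toFam.T.pr x.1.1 p = S.toFam.T.pr x.1.1 q ∨
    (S.toFam.K * |S.toFam.T.pr x.1.1 p - S.toFam.T.pr x.1.1 q| < x.1.2 ∧
      Pc S p (x.1.1 (S.toFam.T.pr x.1.1 p)) ∧ Pc S (x.1.1 (S.toFam.T.pr x.1.1 q)) q) := by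
  by_cases hne : S.toFam.T.pr x.1.1 p = S.toFam.T.pr x.1.1 q
  · exact Or.inr (Or.inl hne)
  have hl := S.toFam.line _ x.2
  obtain ⟨b1, b2⟩ := bt_pr x hne
  rcases h with h | ⟨y, hy, a, b, ha, hb⟩
  · left
    have hd := hl.d_eq p q hne
    have h' : S.toFam.T.d p q ≤ 1 := h
    have n1 := S.toFam.T.d_nonneg p (x.1.1 (S.toFam.T.pr x.1.1 p))
    have n2 := S.toFam.T.d_nonneg (x.1.1 (S.toFam.T.pr x.1.1 q)) q
    have n3 : 0 < |S.toFam.T.pr x.1.1 p - S.toFam.T.pr x.1.1 q| := abs_pos.2 (sub_ne_zero.2 hne)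
    have e1 := S.toFam.T.eq_of_zero p (x.1.1 (S.toFam.T.pr x.1.1 p)) (by omega)
    have e2 := S.toFam.T.eq_of_zero (x.1.1 (S.toFam.T.pr x.1.1 q)) q (by omega)
    rintro t ⟨m, hm⟩
    refine Or.inr ⟨x.1, x.2, S.toFam.T.pr x.1.1 p, S.toFam.T.pr x.1.1 q + m * x.1.2, e1, ?_⟩
    rw [← hm]
    show t * q = t * _
    rw [e2]
  · by_cases hlarge : x.1.2 ≤ S.toFam.K * |S.toFam.T.pr x.1.1 (y.1 a) - S.toFam.T.pr x.1.1 (y.1 b)|
    · left
      obtain ⟨h1, h2, -⟩ := S.toFam.same_of_large x ⟨y, hy⟩ a b hlarge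
      intro t ht
      rw [h1] at ht
      obtain ⟨m, hm⟩ := ht
      refine Or.inr ⟨y, hy, a, b + m * y.2, ha, ?_⟩
      have := hm b
      rw [hb]; exact this
    · right; right
      rw [← ha, ← hb] at hlarge
      have hpc : Pc S p q := Or.inr ⟨y, hy, a, b, ha, hb⟩
      exact ⟨by omega, (hpc.split b1).1, (hpc.split b2).2⟩

lemma ep_cases (x : S.toFam.fam) {n : ℕ} {p q : FreeGroup α} (h : EP S n p q) :
    (∀ t ∈ (trans x.1.1 x.1.2 : Subgroup (FreeGroup α)), EP S n p (t * q)) ∨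
    S.toFam.T.pr x.1.1 p = S.toFam.T.pr x.1.1 q ∨
    ∃ k1 k2 : ℕ, k1 ≤ k2 ∧ k2 < n ∧ EP S (k1 + 1) p (x.1.1 (S.toFam.T.pr x.1.1 p)) ∧
      EP S (n - k2) (x.1.1 (S.toFam.T.pr x.1.1 q)) q ∧
      S.toFam.K * |S.toFam.T.pr x.1.1 p - S.toFam.T.pr x.1.1 q| < ((k2 : ℤ) - k1 + 1) * x.1.2 := by
  have hL := L_pos x
  have hK := S.toFam.hK
  induction h with
  | zero p => exact Or.inr (Or.inl rfl)
  | @succ n p q r hpq hp ih =>
    rcases ih with ih | ih | ⟨k1, k2, hk, hkn, e1, e2, e3⟩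
    · left
      intro t ht
      exact (ih t ht).succ (hp.mul t)
    · rcases hp.cases x with h | h | ⟨h1, h2, h3⟩
      · left
        intro t ht
        exact hpq.succ (h t ht)
      · exact Or.inr (Or.inl (ih.trans h))
      · right; right
        refine ⟨n, n, le_rfl, by omega, ?_, ?_, ?_⟩
        · rw [ih]; exact hpq.succ h2
        · rw [show n + 1 - n = 1 by omega]; exact EP.one h3
        · rw [ih]
          rw [sub_self, zero_add, one_mul]; exact h1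
    · rcases hp.cases x with h | h | ⟨h1, h2, h3⟩
      · left
        intro t ht
        exact hpq.succ (h t ht)
      · right; right
        refine ⟨k1, k2, hk, by omega, e1, ?_, ?_⟩
        · rw [← h]
          have := e2.succ hp
          rwa [show n - k2 + 1 = n + 1 - k2 by omega] at this
        · rw [← h]; exact e3
      · right; right
        refine ⟨k1, n, by omega, by omega, e1, ?_, ?_⟩
        · rw [show n + 1 - n = 1 by omega]; exact EP.one h3
        · have t1 := abs_sub_le (S.toFam.T.pr x.1.1 p) (S.toFam.T.pr x.1.1 q)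
            (S.toFam.T.pr x.1.1 r)
          have t2 : S.toFam.K * |S.toFam.T.pr x.1.1 p - S.toFam.T.pr x.1.1 r| ≤
            S.toFam.K * |S.toFam.T.pr x.1.1 p - S.toFam.T.pr x.1.1 q| +
            S.toFam.K * |S.toFam.T.pr x.1.1 q - S.toFam.T.pr x.1.1 r| := by
            rw [← mul_add]
            exact mul_le_mul_of_nonneg_left t1 (by omega)
          have t3 : ((k2 : ℤ) - k1 + 1) * x.1.2 + x.1.2 ≤ ((n : ℤ) - k1 + 1) * x.1.2 := by
            have : ((k2 : ℤ) - k1 + 1) * x.1.2 + x.1.2 = ((k2 : ℤ) - k1 + 2) * x.1.2 := by ring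
            rw [this]
            apply mul_le_mul_of_nonneg_right _ hL.le
            omega
          omega

/-- **rotation** -/
lemma ep_rot (x : S.toFam.fam) {n : ℕ} {p q : FreeGroup α} (h : EP S n p q)
    (hlarge : 2 * x.1.2 ≤ S.toFam.K * |S.toFam.T.pr x.1.1 p - S.toFam.T.pr x.1.1 q|)
    (t : FreeGroup α) (ht : t ∈ (trans x.1.1 x.1.2 : Subgroup (FreeGroup α))) :
    EP S n p (t * q) := by
  have hL := L_pos x
  rcases ep_cases x h with h | h | ⟨k1, k2, hk, hkn, e1, e2, e3⟩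
  · exact h t ht
  · exfalso
    rw [h, sub_self, abs_zero, mul_zero] at hlarge
    omega
  · have h1 : 2 * x.1.2 < ((k2 : ℤ) - k1 + 1) * x.1.2 := lt_of_le_of_lt hlarge e3
    have h2 : (2 : ℤ) < (k2 : ℤ) - k1 + 1 := lt_of_mul_lt_mul_right h1 hL.le
    obtain ⟨m, hm⟩ := ht
    have s1 : Pc S (x.1.1 (S.toFam.T.pr x.1.1 p)) (t * x.1.1 (S.toFam.T.pr x.1.1 q)) :=
      Or.inr ⟨x.1, x.2, _, _, rfl, hm _⟩
    have s2 := (e1.succ s1).trans (e2.mul t)
    exact s2.mono (by omega)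

/-- the windmill theorem with an arbitrary base point -/
lemma wind (m p : FreeGroup α) (hm : m ∈ S.toFam.N) (h1 : m ≠ 1) : ∃ x : S.toFam.fam,
    (S.toFam.K - 6) * x.1.2 ≤
      S.toFam.K * |S.toFam.T.pr x.1.1 p - S.toFam.T.pr x.1.1 (m * p)| := by
  have h2 : p⁻¹ * m * p ∈ S.toFam.N := by
    have := S.toFam.conj_mem_N m hm p⁻¹
    rwa [inv_inv] at this
  have h3 : p⁻¹ * m * p ≠ 1 := by
    intro h
    apply h1
    have : m = p * (p⁻¹ * m * p) * p⁻¹ := by group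
    rw [this, h]; group
  obtain ⟨x, hx⟩ := S.toFam.toLines.windmill (p⁻¹ * m * p) h2 h3
  change (S.toFam.K - 6) * x.1.2 ≤ S.toFam.K *
    |S.toFam.T.pr x.1.1 (1 : FreeGroup α) - S.toFam.T.pr x.1.1 ((p⁻¹ * m * p) * 1)| at hx
  refine ⟨p • x, ?_⟩
  have e1 := S.toFam.pr_smul p x 1
  have e2 := S.toFam.pr_smul p x ((p⁻¹ * m * p) * 1)
  have e3 : p • (1 : FreeGroup α) = p := mul_one p
  have e4 : p • ((p⁻¹ * m * p) * 1) = m * p := by
    show p * ((p⁻¹ * m * p) * 1) = m * p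
    group
  rw [e3] at e1
  rw [e4] at e2
  rw [e1, e2]
  exact hx

/-- shortening along a line -/
lemma shorten (x : S.toFam.fam) (p q : FreeGroup α)
    (h : x.1.2 < 2 * |S.toFam.T.pr x.1.1 p - S.toFam.T.pr x.1.1 q|) :
    ∃ t ∈ S.toFam.N, t ∈ (trans x.1.1 x.1.2 : Subgroup (FreeGroup α)) ∧
      fd p (t * q) < fd p q := by
  have hL := L_pos x
  have hl := S.toFam.line _ x.2
  have hne : S.toFam.T.pr x.1.1 p ≠ S.toFam.T.pr x.1.1 q := by
    intro h1
    rw [h1, sub_self, abs_zero] at h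
    omega
  have hd := hl.d_eq p q hne
  set a := S.toFam.T.pr x.1.1 p with ha
  set b := S.toFam.T.pr x.1.1 q with hb
  obtain ⟨m, hm⟩ : ∃ m : ℤ, |a - (b + m * x.1.2)| < |a - b| := by
    rcases le_total a b with hab | hab
    · refine ⟨-1, ?_⟩
      rw [abs_sub_comm, abs_of_nonneg (by omega)] at h
      rw [abs_sub_comm a b, abs_of_nonneg (by omega : 0 ≤ b - a), abs_lt]
      constructor <;> omega
    · refine ⟨1, ?_⟩
      rw [abs_of_nonneg (by omega)] at h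
      rw [abs_of_nonneg (by omega : 0 ≤ a - b), abs_lt]
      constructor <;> omega
  obtain ⟨t, ht, htr⟩ := S.exists_tr x.1 x.2
  have hpow : ∀ j : ℤ, ∀ k, t ^ j * x.1.1 k = x.1.1 (k + j * x.1.2) := by
    have hmem : t ∈ (trans x.1.1 x.1.2 : Subgroup (FreeGroup α)) :=
      ⟨1, fun k => by rw [one_mul]; exact htr k⟩
    intro j
    induction j using Int.induction_on with
    | zero => intro k; simp
    | succ j ih =>
      intro k
      have e : k + x.1.2 + (j : ℤ) * x.1.2 = k + ((j : ℤ) + 1) * x.1.2 := by ring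
      rw [zpow_add, zpow_one, mul_assoc, htr, ih, e]
    | pred j ih =>
      intro k
      rw [zpow_sub, zpow_one]
      have h1 := htr (k - x.1.2)
      rw [sub_add_cancel] at h1
      have e : k - x.1.2 + -(j : ℤ) * x.1.2 = k + (-(j : ℤ) - 1) * x.1.2 := by ring
      rw [mul_assoc, ← h1, inv_mul_cancel_left, ih, e]
  refine ⟨t ^ m, Subgroup.zpow_mem _ ht m, ⟨m, hpow m⟩, ?_⟩
  have t1 := S.toFam.T.tri p (x.1.1 a) (t ^ m * q)
  have t2 := S.toFam.T.tri (x.1.1 a) (t ^ m * x.1.1 b) (t ^ m * q)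
  have e1 : S.toFam.T.d (t ^ m * x.1.1 b) (t ^ m * q) = S.toFam.T.d (x.1.1 b) q := fd_mul _ _ _
  have e2 : S.toFam.T.d (x.1.1 a) (t ^ m * x.1.1 b) = |a - (b + m * x.1.2)| := by
    rw [hpow]; exact hl _ _
  show S.toFam.T.d p (t ^ m * q) < S.toFam.T.d p q
  omega

/-- closing a quadrilateral -/
lemma close (l : ℕ → ℕ) : ∀ (n : ℕ) (P : ℕ → FreeGroup α), fd (P 0) (P 4) ≤ n →
    (∀ j < 4, EP S (l j) (P j) (P (j + 1))) → (∃ m ∈ S.toFam.N, P 4 = m * P 0) →
    ∃ P' : ℕ → FreeGroup α, (∀ j < 4, EP S (l j) (P' j) (P' (j + 1))) ∧ P' 4 = P' 0 ∧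
      ∀ j ≤ 4, ∃ m ∈ S.toFam.N, P' j = m * P j := by
  intro n
  induction n with
  | zero =>
    intro P hd hP _
    have h0 := fd_nonneg (P 0) (P 4)
    have := fd_zero (P 0) (P 4) (by push_cast at hd; omega)
    exact ⟨P, hP, this.symm, fun j _ => ⟨1, one_mem _, (one_mul _).symm⟩⟩
  | succ n ih =>
    intro P hd hP hm
    obtain ⟨m, hm, hm4⟩ := hm
    by_cases hm1 : m = 1
    · rw [hm1, one_mul] at hm4
      exact ⟨P, hP, hm4, fun j _ => ⟨1, one_mem _, (one_mul _).symm⟩⟩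
    obtain ⟨x, hx⟩ := wind m (P 0) hm hm1
    rw [← hm4] at hx
    have hL := L_pos x
    have hK := S.toFam.hK
    have hK0 : (0 : ℤ) < S.toFam.K := by omega
    -- a long side
    obtain ⟨j, hj, hjl⟩ : ∃ j < 4, 2 * x.1.2 ≤
        S.toFam.K * |S.toFam.T.pr x.1.1 (P j) - S.toFam.T.pr x.1.1 (P (j + 1))| := by
      by_contra hcon
      push Not at hcon
      have c0 := hcon 0 (by norm_num)
      have c1 := hcon 1 (by norm_num)
      have c2 := hcon 2 (by norm_num)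
      have c3 := hcon 3 (by norm_num)
      have a1 := abs_sub_le (S.toFam.T.pr x.1.1 (P 0)) (S.toFam.T.pr x.1.1 (P 1))
        (S.toFam.T.pr x.1.1 (P 4))
      have a2 := abs_sub_le (S.toFam.T.pr x.1.1 (P 1)) (S.toFam.T.pr x.1.1 (P 2))
        (S.toFam.T.pr x.1.1 (P 4))
      have a3 := abs_sub_le (S.toFam.T.pr x.1.1 (P 2)) (S.toFam.T.pr x.1.1 (P 3))
        (S.toFam.T.pr x.1.1 (P 4))
      have a4 := mul_le_mul_of_nonneg_left (a1.trans (add_le_add le_rfl (a2.trans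
        (add_le_add le_rfl a3)))) hK0.le
      rw [mul_add, mul_add, mul_add] at a4
      have a5 : 14 * x.1.2 ≤ (S.toFam.K - 6) * x.1.2 :=
        mul_le_mul_of_nonneg_right (by omega) hL.le
      norm_num at c0 c1 c2 c3
      omega
    -- shorten
    have hbig : x.1.2 < 2 * |S.toFam.T.pr x.1.1 (P 0) - S.toFam.T.pr x.1.1 (P 4)| := by
      by_contra hcon
      push Not at hcon
      have a6 := mul_le_mul_of_nonneg_left hcon hK0.le
      have a7 : 2 * (S.toFam.K * x.1.2 - 6 * x.1.2) ≤ S.toFam.K * x.1.2 := by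
        have : (S.toFam.K - 6) * x.1.2 = S.toFam.K * x.1.2 - 6 * x.1.2 := by ring
        rw [this] at hx
        have e : S.toFam.K * (2 * |S.toFam.T.pr x.1.1 (P 0) - S.toFam.T.pr x.1.1 (P 4)|) =
          2 * (S.toFam.K * |S.toFam.T.pr x.1.1 (P 0) - S.toFam.T.pr x.1.1 (P 4)|) := by ring
        omega
      have a8 : 20 * x.1.2 ≤ S.toFam.K * x.1.2 := mul_le_mul_of_nonneg_right hK hL.le
      omega
    obtain ⟨t, htN, htr, hlt⟩ := shorten x (P 0) (P 4) hbig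
    let Q : ℕ → FreeGroup α := fun i => if i ≤ j then P i else t * P i
    have hQ0 : Q 0 = P 0 := by simp [Q]
    have hQ4 : Q 4 = t * P 4 := by
      simp only [Q]; rw [if_neg (by omega)]
    obtain ⟨P', h1, h2, h3⟩ := ih Q (by rw [hQ0, hQ4]; push_cast at hd; omega) (by
      intro i hi
      simp only [Q]
      rcases lt_trichotomy i j with h | h | h
      · rw [if_pos (by omega), if_pos (by omega)]
        exact hP i hi
      · subst h
        rw [if_pos le_rfl, if_neg (by omega)]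
        exact ep_rot x (hP i hi) hjl t htr
      · rw [if_neg (by omega), if_neg (by omega)]
        exact (hP i hi).mul t) ⟨t * m, mul_mem htN hm, by rw [hQ4, hQ0, hm4, mul_assoc]⟩
    refine ⟨P', h1, h2, ?_⟩
    intro i hi
    obtain ⟨m', hm', e⟩ := h3 i hi
    simp only [Q] at e
    split_ifs at e
    · exact ⟨m', hm', e⟩
    · exact ⟨m' * t, mul_mem hm' htN, by rw [e, mul_assoc]⟩

instance : S.toFam.N.Normal := S.toFam.N_normal

/-- the quotient of the cone length satisfies the four point inequality -/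
theorem quo_four (u p v z : FreeGroup α ⧸ S.toFam.N) :
    (coneGH S).qoLen S.toFam.N (u⁻¹ * v) + (coneGH S).qoLen S.toFam.N (z⁻¹ * p) ≤
      max ((coneGH S).qoLen S.toFam.N (u⁻¹ * z) + (coneGH S).qoLen S.toFam.N (v⁻¹ * p))
        ((coneGH S).qoLen S.toFam.N (u⁻¹ * p) + (coneGH S).qoLen S.toFam.N (v⁻¹ * z)) + 3 := by
  obtain ⟨P0, h0⟩ := QuotientGroup.mk_surjective u
  obtain ⟨P1, h1, d1⟩ := (coneGH S).qoLen_lift S.toFam.N P0 p
  obtain ⟨P2, h2, d2⟩ := (coneGH S).qoLen_lift S.toFam.N P1 v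
  obtain ⟨P3, h3, d3⟩ := (coneGH S).qoLen_lift S.toFam.N P2 z
  obtain ⟨P4, h4, d4⟩ := (coneGH S).qoLen_lift S.toFam.N P3 u
  have h0' : (P0 : FreeGroup α ⧸ S.toFam.N) = u := h0
  obtain ⟨m, hm, hm4⟩ := GH.qo_of_coe_eq S.toFam.N (h0'.trans h4.symm)
  rw [h0'] at d1
  rw [h1] at d2
  rw [h2] at d3
  rw [h3] at d4
  let P : ℕ → FreeGroup α := fun j => match j with
    | 0 => P0
    | 1 => P1
    | 2 => P2
    | 3 => P3
    | _ => P4
  let l : ℕ → ℕ := fun j => match j with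
    | 0 => (coneGH S).qoLen S.toFam.N (u⁻¹ * p)
    | 1 => (coneGH S).qoLen S.toFam.N (p⁻¹ * v)
    | 2 => (coneGH S).qoLen S.toFam.N (v⁻¹ * z)
    | _ => (coneGH S).qoLen S.toFam.N (z⁻¹ * u)
  obtain ⟨P', hR, hc, hP'⟩ := close (S := S) l (fd (P 0) (P 4)).toNat P (by
      have := fd_nonneg (P 0) (P 4)
      omega)
    (fun j hj => by
      rcases (by omega : j = 0 ∨ j = 1 ∨ j = 2 ∨ j = 3) with rfl | rfl | rfl | rfl
      · exact (elen_le_iff S).1 d1.le
      · exact (elen_le_iff S).1 d2.le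
      · exact (elen_le_iff S).1 d3.le
      · exact (elen_le_iff S).1 d4.le)
    ⟨m, hm, hm4⟩
  have e : ∀ j ≤ 4, (P' j : FreeGroup α ⧸ S.toFam.N) = (P j : FreeGroup α ⧸ S.toFam.N) := by
    intro j hj
    obtain ⟨m', hm', h⟩ := hP' j hj
    rw [h]
    exact GH.qo_coe_mul S.toFam.N hm' _
  have r0 : (coneGH S).d (P' 0) (P' 1) ≤ (coneGH S).qoLen S.toFam.N (u⁻¹ * p) := (elen_le_iff S).2 (hR 0 (by norm_num))
  have r1 : (coneGH S).d (P' 1) (P' 2) ≤ (coneGH S).qoLen S.toFam.N (p⁻¹ * v) := (elen_le_iff S).2 (hR 1 (by norm_num))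
  have r2 : (coneGH S).d (P' 2) (P' 3) ≤ (coneGH S).qoLen S.toFam.N (v⁻¹ * z) := (elen_le_iff S).2 (hR 2 (by norm_num))
  have r3 : (coneGH S).d (P' 3) (P' 4) ≤ (coneGH S).qoLen S.toFam.N (z⁻¹ * u) := (elen_le_iff S).2 (hR 3 (by norm_num))
  rw [hc] at r3
  have f := (coneGH S).fp (P' 0) (P' 2) (P' 3) (P' 1)
  have hD : (coneGH S).D = 3 := rfl
  have g1 := (coneGH S).qoLen_d S.toFam.N (P' 0) (P' 2)
  have g2 := (coneGH S).qoLen_d S.toFam.N (P' 3) (P' 1)
  rw [e 0 (by norm_num), e 2 (by norm_num)] at g1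
  rw [e 3 (by norm_num), e 1 (by norm_num)] at g2
  have a0 : (P 0 : FreeGroup α ⧸ S.toFam.N) = u := h0'
  have a1 : (P 1 : FreeGroup α ⧸ S.toFam.N) = p := h1
  have a2 : (P 2 : FreeGroup α ⧸ S.toFam.N) = v := h2
  have a3 : (P 3 : FreeGroup α ⧸ S.toFam.N) = z := h3
  rw [a0, a2] at g1
  rw [a3, a1] at g2
  have c1 : (coneGH S).qoLen S.toFam.N (z⁻¹ * u) = (coneGH S).qoLen S.toFam.N (u⁻¹ * z) := by
    rw [← (coneGH S).qoLen_inv]; congr 1; group
  have c2 : (coneGH S).qoLen S.toFam.N (p⁻¹ * v) = (coneGH S).qoLen S.toFam.N (v⁻¹ * p) := by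
    rw [← (coneGH S).qoLen_inv]; congr 1; group
  have c3 := (coneGH S).d_comm (P' 0) (P' 3)
  have c4 := (coneGH S).d_comm (P' 1) (P' 2)
  omega

end Pool.Agent.H346.SC
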