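import Pool.Graph.R_seed8.H17R2.TorsionFree
import Pool.Graph.R_seed8.TH54.BU.QuoEA
import Pool.Graph.R_seed8.Y470.SM.QIH

set_option autoImplicit false

/-!
# The cone length of a small cancellation system of words

The free group with the relator lines coned off.
-/

namespace Pool.Agent.H346.SC

open Pool.Agent.H17R2 Pool.Agent.TH54.BU FreeGroup

section tree

variable {V : Type*} (T : ZTree V)

/-- `m` lies between `p` and `q` -/
def Bt (p m q : V) : Prop := T.d p m + T.d m q = T.d p q

variable {T}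

lemma Bt.symm {p m q : V} (h : Bt T p m q) : Bt T q m p := by
  unfold Bt at *
  rw [T.d_comm q m, T.d_comm m p, T.d_comm q p]; omega

lemma Bt.or {p m q' : V} (h : Bt T p m q') (q : V) : Bt T p m q ∨ Bt T q m q' := by
  unfold Bt at *
  have h1 := T.four m q p q'
  have h2 := T.tri p m q
  have h3 := T.tri q m q'
  have c1 := T.d_comm m q
  have c2 := T.d_comm m p
  have c3 := T.d_comm q p
  have c4 := T.d_comm q' m
  rcases le_max_iff.1 h1 with h4 | h4
  · right; omega
  · left; omega

lemma Bt.mono {p m m' q : V} (h : Bt T p m q) (h' : Bt T p m' q) (hle : T.d p m ≤ T.d p m') :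
    Bt T p m m' := by
  unfold Bt at *
  have h1 := T.four m m' p q
  have c2 := T.d_comm m p
  have c3 := T.d_comm m' p
  have h2 := T.tri p m m'
  rcases le_max_iff.1 h1 with h4 | h4 <;> omega

end tree

variable {α : Type} [DecidableEq α] (S : Words α)

/-- one step of the coned off tree -/
def Pc (p q : FreeGroup α) : Prop :=
  (fTree α).d p q ≤ 1 ∨ ∃ x ∈ S.toFam.fam, ∃ a b : ℤ, p = x.1 a ∧ q = x.1 b

variable {S}

lemma Pc.refl (p : FreeGroup α) : Pc S p p := Or.inl (by rw [(fTree α).d_self]; norm_num)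

lemma Pc.symm {p q : FreeGroup α} (h : Pc S p q) : Pc S q p := by
  rcases h with h | ⟨x, hx, a, b, ha, hb⟩
  · left; rwa [(fTree α).d_comm]
  · exact Or.inr ⟨x, hx, b, a, hb, ha⟩

lemma Pc.mul {p q : FreeGroup α} (h : Pc S p q) (g : FreeGroup α) : Pc S (g * p) (g * q) := by
  rcases h with h | ⟨x, hx, a, b, ha, hb⟩
  · left
    have : (fTree α).d (g * p) (g * q) = (fTree α).d p q := fd_mul g p q
    rwa [this]
  · exact Or.inr ⟨_, S.toFam.smul_mem g x hx, a, b, by rw [ha]; rfl, by rw [hb]; rfl⟩

lemma Pc.split {p m q : FreeGroup α} (h : Pc S p q) (hm : Bt (fTree α) p m q) :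
    Pc S p m ∧ Pc S m q := by
  have n1 := (fTree α).d_nonneg p m
  have n2 := (fTree α).d_nonneg m q
  unfold Bt at hm
  rcases h with h | ⟨x, hx, a, b, ha, hb⟩
  · exact ⟨Or.inl (by omega), Or.inl (by omega)⟩
  · have hl := S.toFam.line x hx
    subst ha; subst hb
    have e := hl a b
    obtain ⟨u, hu, _, _⟩ := hl.on_line a b m (by rw [← e]; exact hm)
    exact ⟨Or.inr ⟨x, hx, a, u, rfl, hu⟩, Or.inr ⟨x, hx, u, b, hu, rfl⟩⟩

variable (S)

/-- `p` and `q` are joined by `n` steps -/
inductive EP : ℕ → FreeGroup α → FreeGroup α → Prop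
  | zero (p : FreeGroup α) : EP 0 p p
  | succ {n : ℕ} {p q r : FreeGroup α} : EP n p q → Pc S q r → EP (n + 1) p r

variable {S}

namespace EP

lemma one {p q : FreeGroup α} (h : Pc S p q) : EP S 1 p q := (EP.zero p).succ h

lemma eq_of_zero {p q : FreeGroup α} (h : EP S 0 p q) : p = q := by
  cases h; rfl

lemma up {n : ℕ} {p q : FreeGroup α} (h : EP S n p q) : EP S (n + 1) p q := h.succ (Pc.refl q)

lemma mono {n m : ℕ} {p q : FreeGroup α} (h : EP S n p q) (hnm : n ≤ m) : EP S m p q := by
  obtain ⟨k, rfl⟩ := Nat.exists_eq_add_of_le hnm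
  induction k with
  | zero => exact h
  | succ k ih => exact (ih (by omega)).up

lemma trans {n m : ℕ} {p q r : FreeGroup α} (h : EP S n p q) (h' : EP S m q r) :
    EP S (n + m) p r := by
  induction h' with
  | zero => exact h
  | succ _ hp ih => exact (ih h).succ hp

lemma symm {n : ℕ} {p q : FreeGroup α} (h : EP S n p q) : EP S n q p := by
  induction h with
  | zero p => exact EP.zero p
  | succ _ hp ih =>
    have := (EP.one hp.symm).trans ih
    rwa [add_comm] at this

lemma mul {n : ℕ} {p q : FreeGroup α} (h : EP S n p q) (g : FreeGroup α) :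
    EP S n (g * p) (g * q) := by
  induction h with
  | zero p => exact EP.zero _
  | succ _ hp ih => exact ih.succ (hp.mul g)

lemma of_norm (n : ℕ) : ∀ q : FreeGroup α, fd 1 q ≤ n → EP S n 1 q := by
  induction n with
  | zero =>
    intro q hq
    have : fd 1 q = 0 := le_antisymm (by simpa using hq) (fd_nonneg _ _)
    rw [← fd_zero _ _ this]
    exact EP.zero _
  | succ n ih =>
    intro q hq
    obtain ⟨p, hp, hpq⟩ := fd_step n q (by push_cast at hq; exact hq)
    exact (ih p hp).succ (Or.inl hpq)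

/-- cutting a path at a point of the geodesic -/
lemma split {n : ℕ} {p q : FreeGroup α} (h : EP S n p q) : ∀ m, Bt (fTree α) p m q →
    ∃ k, k ≤ n ∧ EP S k p m ∧ EP S (n + 1 - k) m q := by
  induction h with
  | zero p =>
    intro m hm
    have h1 := (fTree α).d_self p
    have h2 := (fTree α).d_nonneg p m
    have h3 := (fTree α).d_nonneg m p
    unfold Bt at hm
    have h4 : (fTree α).d p m = 0 := by omega
    have h5 := (fTree α).eq_of_zero _ _ h4
    subst h5
    exact ⟨0, le_rfl, EP.zero _, (EP.zero _).up⟩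
  | @succ n p q r hpq hp ih =>
    intro m hm
    rcases hm.or q with h1 | h1
    · obtain ⟨k, hk, e1, e2⟩ := ih m h1
      refine ⟨k, by omega, e1, ?_⟩
      have := e2.succ hp
      rwa [show n + 1 - k + 1 = n + 1 + 1 - k by omega] at this
    · obtain ⟨p1, p2⟩ := hp.split h1
      refine ⟨n + 1, le_rfl, hpq.succ p1, ?_⟩
      rw [show n + 1 + 1 - (n + 1) = 1 by omega]
      exact EP.one p2

end EP

variable (S)

lemma exists_EP (g : FreeGroup α) : ∃ n, EP S n 1 g :=
  ⟨norm g, EP.of_norm _ g (by rw [fd_one])⟩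

open Classical in
/-- the cone length -/
noncomputable def elen (g : FreeGroup α) : ℕ := Nat.find (exists_EP S g)

open Classical in
lemma elen_spec (g : FreeGroup α) : EP S (elen S g) 1 g := Nat.find_spec (exists_EP S g)

open Classical in
lemma elen_le {g : FreeGroup α} {n : ℕ} (h : EP S n 1 g) : elen S g ≤ n := Nat.find_min' _ h

lemma elen_le_iff {p q : FreeGroup α} {n : ℕ} : elen S (p⁻¹ * q) ≤ n ↔ EP S n p q := by
  constructor
  · intro h
    have := ((elen_spec S (p⁻¹ * q)).mono h).mul p
    rwa [mul_one, mul_inv_cancel_left] at this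
  · intro h
    have := h.mul p⁻¹
    rw [inv_mul_cancel] at this
    exact elen_le S this

lemma ep_elen (p q : FreeGroup α) : EP S (elen S (p⁻¹ * q)) p q := (elen_le_iff S).1 le_rfl

lemma elen_split {p m q : FreeGroup α} (h : Bt (fTree α) p m q) :
    elen S (p⁻¹ * m) + elen S (m⁻¹ * q) ≤ elen S (p⁻¹ * q) + 1 ∧
      elen S (p⁻¹ * m) ≤ elen S (p⁻¹ * q) := by
  obtain ⟨k, hk, e1, e2⟩ := (ep_elen S p q).split m h
  have h1 := (elen_le_iff S).2 e1
  have h2 := (elen_le_iff S).2 e2
  omega

lemma elen_tri (p m q : FreeGroup α) :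
    elen S (p⁻¹ * q) ≤ elen S (p⁻¹ * m) + elen S (m⁻¹ * q) :=
  (elen_le_iff S).2 ((ep_elen S p m).trans (ep_elen S m q))

lemma elen_symm (p q : FreeGroup α) : elen S (p⁻¹ * q) = elen S (q⁻¹ * p) :=
  le_antisymm ((elen_le_iff S).2 (ep_elen S q p).symm) ((elen_le_iff S).2 (ep_elen S p q).symm)

/-- the point of a geodesic at given distance -/
lemma exists_pt (p q : FreeGroup α) (k : ℤ) (h0 : 0 ≤ k) (hk : k ≤ fd p q) :
    ∃ m, Bt (fTree α) p m q ∧ fd p m = k := by
  set l := (p⁻¹ * q).toWord with hl
  have hlen : fd p q = l.length := rfl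
  obtain ⟨j, rfl⟩ := Int.eq_ofNat_of_zero_le h0
  have hj : j ≤ l.length := by omega
  have hred : FreeGroup.IsReduced l := isReduced_toWord
  have h1 : FreeGroup.IsReduced (l.take j) := hred.take j
  have h2 : FreeGroup.IsReduced (l.drop j) := hred.drop j
  have e1 : fd p (p * mk (l.take j)) = j := by
    unfold fd
    rw [inv_mul_cancel_left, FreeGroup.norm, toWord_mk, h1.reduce_eq, List.length_take]
    simp [hj]
  refine ⟨p * mk (l.take j), ?_, e1⟩
  have e2 : fd (p * mk (l.take j)) q = l.length - j := by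
    unfold fd
    have : (p * mk (l.take j))⁻¹ * q = mk (l.drop j) := by
      have h3 : p⁻¹ * q = mk (l.take j) * mk (l.drop j) := by
        rw [mul_mk, List.take_append_drop, hl, mk_toWord]
      rw [mul_inv_rev, mul_assoc, h3, inv_mul_cancel_left]
    rw [this, FreeGroup.norm, toWord_mk, h2.reduce_eq, List.length_drop]
    omega
  show fd p _ + fd _ q = fd p q
  rw [e1, e2, hlen]; ring

/-- the median of three points -/
lemma exists_med (w x y : FreeGroup α) : ∃ m, Bt (fTree α) w m x ∧ Bt (fTree α) w m y ∧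
    Bt (fTree α) x m y ∧ 2 * fd w m = fd w x + fd w y - fd x y := by
  have t1 := fd_tri x w y
  have t2 := fd_tri w y x
  have t3 := fd_tri w x y
  have c1 := fd_comm x w
  have c2 := fd_comm y x
  have hpar := (fTree α).par w x y
  change (2:ℤ) ∣ fd w x + fd x y + fd w y at hpar
  obtain ⟨k, hk⟩ : ∃ k, 2 * k = fd w x + fd w y - fd x y := by
    obtain ⟨c, hc⟩ := hpar
    exact ⟨c - fd x y, by linarith⟩
  obtain ⟨m, hm, hmk⟩ := exists_pt w x k (by omega) (by omega)
  have hm' : fd w m + fd m x = fd w x := hm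
  have f := (fTree α).four m y w x
  change fd m y + fd w x ≤ max (fd m w + fd y x) (fd m x + fd y w) at f
  have c3 := fd_comm m w
  have c4 := fd_comm y w
  have c5 := fd_comm x m
  have t4 := fd_tri w m y
  have t5 := fd_tri x m y
  have h1 : fd m y ≤ fd w y - k := by
    rcases le_max_iff.1 f with h | h <;> omega
  refine ⟨m, hm, ?_, ?_, by omega⟩
  · show fd w m + fd m y = fd w y
    omega
  · show fd x m + fd m y = fd x y
    omega

/-- the cone Gromov product is the cone length of the common part -/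
lemma elen_med {w x y m : FreeGroup α} (h1 : Bt (fTree α) w m x) (h2 : Bt (fTree α) w m y)
    (h3 : Bt (fTree α) x m y) :
    2 * elen S (w⁻¹ * m) + elen S (x⁻¹ * y) ≤ elen S (w⁻¹ * x) + elen S (w⁻¹ * y) + 2 ∧
    elen S (w⁻¹ * x) + elen S (w⁻¹ * y) ≤ 2 * elen S (w⁻¹ * m) + elen S (x⁻¹ * y) + 1 := by
  have a1 := (elen_split S h1).1
  have a2 := (elen_split S h2).1
  have a3 := (elen_split S h3).1
  have b1 := elen_tri S w m x
  have b2 := elen_tri S w m y
  have b3 := elen_tri S x m y
  have c := elen_symm S x m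
  omega

lemma elen_four_base (w x y z : FreeGroup α) :
    elen S (x⁻¹ * z) + elen S (y⁻¹ * w) ≤
      max (elen S (x⁻¹ * y) + elen S (z⁻¹ * w)) (elen S (x⁻¹ * w) + elen S (z⁻¹ * y)) + 3 := by
  obtain ⟨m1, p1, p2, p3, p4⟩ := exists_med w x y
  obtain ⟨m2, q1, q2, q3, q4⟩ := exists_med w y z
  obtain ⟨m3, r1, r2, r3, r4⟩ := exists_med w x z
  have A1 := (elen_med S p1 p2 p3)
  have A2 := (elen_med S q1 q2 q3)
  have A3 := (elen_med S r1 r2 r3)
  have f := (fTree α).four x z y w
  change fd x z + fd y w ≤ max (fd x y + fd z w) (fd x w + fd z y) at f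
  have c1 := fd_comm y w
  have c2 := fd_comm z w
  have c3 := fd_comm x w
  have c4 := fd_comm z y
  have s1 := elen_symm S y w
  have s2 := elen_symm S z w
  have s3 := elen_symm S x w
  have s4 := elen_symm S z y
  rcases le_max_iff.1 f with h | h
  · -- m1 is nearer
    have hle : fd w m1 ≤ fd w m3 := by omega
    have := (elen_split S (p1.mono r1 hle)).2
    have := le_max_left (elen S (x⁻¹ * y) + elen S (z⁻¹ * w)) (elen S (x⁻¹ * w) + elen S (z⁻¹ * y))
    have := le_max_right (elen S (x⁻¹ * y) + elen S (z⁻¹ * w)) (elen S (x⁻¹ * w) + elen S (z⁻¹ * y))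
    omega
  · have hle : fd w m2 ≤ fd w m3 := by omega
    have := (elen_split S (q2.mono r2 hle)).2
    have := le_max_left (elen S (x⁻¹ * y) + elen S (z⁻¹ * w)) (elen S (x⁻¹ * w) + elen S (z⁻¹ * y))
    have := le_max_right (elen S (x⁻¹ * y) + elen S (z⁻¹ * w)) (elen S (x⁻¹ * w) + elen S (z⁻¹ * y))
    omega

/-- the cone length is a hyperbolic length -/
noncomputable def coneGH : GH (FreeGroup α) where
  len := elen S
  D := 3
  len_one := Nat.le_zero.1 (elen_le S (EP.zero 1))
  eq_one := fun g h => by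
    have := elen_spec S g
    rw [h] at this
    exact this.eq_of_zero.symm
  len_inv := fun g => by
    have := elen_symm S g 1
    simpa using this
  len_mul := fun g h => by
    have := elen_tri S g⁻¹ 1 h
    simpa using this
  fp' := fun u v w z => by
    have := elen_four_base S z u w v
    have s1 := elen_symm S w z
    have s2 := elen_symm S v w
    omega
  step := fun g k hk => by
    have key : ∀ (n : ℕ) (g : FreeGroup α), EP S n 1 g → ∀ k ≤ n, ∃ h, EP S k 1 h ∧
        EP S (n - k) h g := by
      intro n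
      induction n with
      | zero =>
        intro g hg k hk
        exact ⟨1, (EP.zero 1).mono (Nat.zero_le _), hg.mono (by omega)⟩
      | succ n ih =>
        intro g hg k hk
        cases hg with
        | succ h1 h2 =>
          rcases Nat.lt_or_ge n k with hkn | hkn
          · have : k = n + 1 := by omega
            subst this
            exact ⟨g, h1.succ h2, by rw [Nat.sub_self]; exact EP.zero g⟩
          · obtain ⟨h, e1, e2⟩ := ih _ h1 k hkn
            exact ⟨h, e1, by
              have := e2.succ h2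
              rwa [show n - k + 1 = n + 1 - k by omega] at this⟩
    obtain ⟨h, e1, e2⟩ := key _ g (elen_spec S g) k hk
    have h1 := elen_le S e1
    have h2 := (elen_le_iff S).2 e2
    have h3 := elen_tri S 1 h g
    rw [inv_one, one_mul, one_mul] at h3
    exact ⟨h, by omega, by omega⟩

end Pool.Agent.H346.SC
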